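import Pool.Agent.Helper58.AF.Defs
import Pool.Agent.Helper58.AR.Over
import Pool.Agent.Helper64.TS.Assemble

/-!
TS, assembly: the statement in terms of the definitions in `Defs.lean`.
-/

set_option autoImplicit false

namespace Pool.Agent.Helper58.AF

open Pool.Agent.Helper65.TH Pool.Agent.Helper64.TS Pool.Agent.Helper58.GI

universe u v w

theorem thin_of_inUnits {K : Type u} [Field K] (hK : SmallField K) {G : Type w} [Group G]
    (h : InUnits K G) (T : Finset G) : ∃ N, Thin (Subgroup.closure (T : Set G)) N := by
  obtain ⟨A, i1, i2, hA, f, hf⟩ := h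
  exact Pool.Agent.Helper58.LU.thin_of_inUnits ⟨K, inferInstance, A, i1, i2, hK, hA, f, hf⟩ T

theorem thin_of_over {G : Type w} [Group G] (T : Finset G)
    (h : LinearOver.{u} T ∨ UniformOver T) : ∃ N, Thin (Subgroup.closure (T : Set G)) N := by
  rcases h with h | h
  · exact Pool.Agent.Helper58.LU.thin_of_linearOver T h
  · exact Pool.Agent.Helper58.LU.thin_of_uniformOver T h

/-- the countable groups `G` with finitely many homomorphisms to groups of units of locally
finite-dimensional algebras over arbitrary fields, or to groups with one stage -/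
theorem twoRadii_of_homs {G : Type v} [Group G] [MetricSpace G] (hG : ProperInvariant G) {n : ℕ}
    {H : Fin n → Type w} [∀ i, Group (H i)] (φ : ∀ i, G →* H i)
    (h : ∀ i, (∃ (K : Type u) (_ : Field K), InUnits K (H i)) ∨
      ∀ T : Finset (H i), LinearOver.{u} T ∨ UniformOver T)
    (hker : ∀ T : Finset G,
      {g : G | g ∈ Subgroup.closure (T : Set G) ∧ ∀ i, φ i g = 1}.Finite) : TwoRadiiAPC G := by
  have hc : Countable G := countable_of_proper hG.2
  have h2 : TwoStage G := by
    refine twoStage_of_good.{u} φ (fun i => ?_) hker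
    rcases h i with ⟨K, iK, A, iA, iKA, hA, f, hf⟩ | h3
    · exact Or.inl ⟨K, iK, A, iA, iKA, hA, f, hf⟩
    · exact Or.inr (Or.inr fun T => thin_of_over T (h3 T))
  obtain ⟨N, n, hn⟩ := apc_of_twoStage hG.1 hG.2 h2
  exact ⟨N, n, fun R hR hmono => hn R hR hmono⟩

end Pool.Agent.Helper58.AF
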