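import Mathlib

/-!
Definitions for the statement of `MP_2c6f0d_gt.AllFields`.
-/

set_option autoImplicit false

namespace Pool.Agent.Helper58.AF

universe u v w

/-- The metric is left-invariant and proper: all balls are finite. -/
def ProperInvariant (G : Type v) [Group G] [MetricSpace G] : Prop :=
  (∀ a b c : G, dist (a * b) (a * c) = dist b c) ∧
  ∀ r : ℝ, (Metric.closedBall (1 : G) r).Finite

/-- The families of asymptotic property C for the radii `R 0, ..., R (n - 1)`: the family `U i` is
uniformly bounded and `R i`-disjoint, the infimum of the distances between different members being larger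
than `R i`, and the `n` families cover the space. -/
def HasFamilies (X : Type v) [MetricSpace X] (R : ℕ → ℝ) (n : ℕ) : Prop :=
  ∃ U : Fin n → Set (Set X),
    (∀ i, ∃ D : ℝ, ∀ A ∈ U i, ∀ x ∈ A, ∀ y ∈ A, dist x y ≤ D) ∧
    (∀ i, ∀ A ∈ U i, ∀ B ∈ U i, A ≠ B →
      ∃ δ : ℝ, R i < δ ∧ ∀ x ∈ A, ∀ y ∈ B, δ ≤ dist x y) ∧
    (∀ x : X, ∃ i, ∃ A ∈ U i, x ∈ A)

/-- All finitely generated subgroups of `G` have finite asymptotic dimension, and `G` has asymptotic
property C with a number of families which depends on the first radius only. -/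
def UniformAPC (G : Type v) [Group G] [MetricSpace G] : Prop :=
  (∀ H : Subgroup G, H.FG → ∃ t : ℕ, ∀ r : ℝ, HasFamilies H (fun _ => r) t) ∧
  ∃ n : ℝ → ℕ, ∀ R : ℕ → ℝ, (∀ i, 0 < R i) → Monotone R → HasFamilies G R (n (R 0))

/-- `G` has asymptotic property C with a number of families which depends on two of the radii only: the
first one, and the one whose index is `N` of the first one. -/
def TwoRadiiAPC (G : Type v) [Group G] [MetricSpace G] : Prop :=
  ∃ (N : ℝ → ℕ) (n : ℝ → ℝ → ℕ), ∀ R : ℕ → ℝ, (∀ i, 0 < R i) → Monotone R →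
    HasFamilies G R (n (R 0) (R (N (R 0))))

/-- `G` embeds in the group of units of an algebra over `K` each finite subset of which lies in a
finite-dimensional subalgebra. -/
def InUnits (K : Type u) [Field K] (G : Type w) [Group G] : Prop :=
  ∃ (A : Type w) (_ : Ring A) (_ : Algebra K A),
    (∀ s : Finset A, ∃ B : Subalgebra K A, Module.Finite K B ∧ ∀ a ∈ s, a ∈ B) ∧
    ∃ f : G →* Aˣ, Function.Injective f

/-- `K` has positive characteristic or consists of algebraic numbers. -/
def SmallField (K : Type u) [Field K] : Prop :=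
  (∃ p : ℕ, p.Prime ∧ CharP K p) ∨ (CharZero K ∧ ∀ x : K, IsAlgebraic ℤ x)

/-- a non-archimedean absolute value, or the absolute value given by an embedding into `ℂ` -/
def Place {K : Type u} [Field K] (v : AbsoluteValue K ℝ) : Prop :=
  IsNonarchimedean v ∨ ∃ σ : K →+* ℂ, ∀ x, v x = ‖σ x‖

/-- There are a field `K` with places `v 0, ..., v (n - 1)` and functions `y 0, ..., y (d - 1)` on `G` with
values in `K` such that only finitely many elements of `⟨T⟩` have bounded values `y h l` at the places, and
for every finite set `S` containing `T` there is a homomorphism `φ` from `⟨S⟩` to a group `GL_m(K)` such that for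
the elements `h` of `⟨T⟩` the entries of `φ h` are polynomials in the values `y h l`, and the values `y h l`
are bounded at each of the places in terms of bounds for the entries of `φ h`. The numbers `d` and `n` depend
on `T` only, `m` and the polynomials depend on `S`. -/
def LinearOver {G : Type w} [Group G] (T : Finset G) : Prop :=
  ∃ (K : Type u) (_ : Field K) (d n : ℕ) (y : G → Fin d → K) (v : Fin n → AbsoluteValue K ℝ),
    (∀ i, Place (v i)) ∧
    (∀ B : ℝ, {h : G | h ∈ Subgroup.closure (T : Set G) ∧ ∀ i l, v i (y h l) ≤ B}.Finite) ∧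
    ∀ S : Finset G, T ⊆ S → ∃ (m : ℕ) (φ : Subgroup.closure (S : Set G) →* GL (Fin m) K),
      (∀ a b, ∃ P : MvPolynomial (Fin d) K, ∀ h : Subgroup.closure (S : Set G),
        (h : G) ∈ Subgroup.closure (T : Set G) → φ h a b = MvPolynomial.eval (y h) P) ∧
      ∀ (i : Fin n) (B : ℝ), ∃ C : ℝ, ∀ h : Subgroup.closure (S : Set G),
        (h : G) ∈ Subgroup.closure (T : Set G) → (∀ a b, v i (φ h a b) ≤ B) →
          ∀ l, v i (y h l) ≤ C

/-- There is `t` such that for every finite set `S` containing `T` there is a length function on `⟨S⟩`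
which is proper on `⟨T⟩` and whose left-invariant pseudometric has asymptotic dimension less
than `t`: at every scale `r` the group is the union of `t` sets whose `r`-chains are uniformly bounded. -/
def UniformOver {G : Type w} [Group G] (T : Finset G) : Prop :=
  ∃ t : ℕ, ∀ S : Finset G, T ⊆ S → ∃ ℓ : Subgroup.closure (S : Set G) → ℝ,
    (∀ x, ℓ x⁻¹ = ℓ x) ∧ (∀ x y, ℓ (x * y) ≤ ℓ x + ℓ y) ∧
    (∀ r : ℝ, ∃ (D : ℝ) (A : Fin t → Set (Subgroup.closure (S : Set G))), (∀ x, ∃ i, x ∈ A i) ∧
      ∀ i, ∀ x ∈ A i, ∀ y, Relation.ReflTransGen (fun a b => b ∈ A i ∧ ℓ (a⁻¹ * b) ≤ r) x y →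
        ℓ (x⁻¹ * y) ≤ D) ∧
    ∀ r : ℝ, {h : Subgroup.closure (S : Set G) |
      (h : G) ∈ Subgroup.closure (T : Set G) ∧ ℓ h ≤ r}.Finite

/-- the relations between the standard generators of the infinite braid group -/
def braidRels : Set (FreeGroup ℕ) :=
  {r | (∃ i, r = FreeGroup.of i * FreeGroup.of (i + 1) * FreeGroup.of i *
      (FreeGroup.of (i + 1) * FreeGroup.of i * FreeGroup.of (i + 1))⁻¹) ∨
    ∃ i j, i + 2 ≤ j ∧ r = FreeGroup.of i * FreeGroup.of j *
      (FreeGroup.of j * FreeGroup.of i)⁻¹}

end Pool.Agent.Helper58.AF
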